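import Pool.Agent.Lib_helper46.Chrom.NSDefs

/-!
# The structure of a big tight face (note 1214, section 5.3)
-/

open Finset

namespace Pool.Agent.Chrom

section

variable {V : Type} [Fintype V] [DecidableEq V] {A : Finset V → Prop} {a d z : V}
  {D T f C X Q : Finset V}

/-- a tight face missing `a` whose component of `a` contains that of a big face `D` contains no
point of `D` in this component -/
lemma Big.contra (hB : Big A a D) (hT : Tight A T) (haT : a ∉ T)
    (hsub : comp (gr A) D a ⊆ comp (gr A) T a) (hd : d ∈ D) (hdc : d ∈ comp (gr A) T a) :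
    False := by
  have h1 : d ∉ comp (gr A) D a := fun hm =>
    Finset.disjoint_left.1 (comp_disjoint hB.na) hm hd
  have h2 : comp (gr A) D a ⊂ comp (gr A) T a := by
    rw [Finset.ssubset_iff_subset_ne]
    refine ⟨hsub, fun he => h1 ?_⟩
    rw [he]
    exact hdc
  have := card_lt_card h2
  have := hB.max T hT haT
  omega

/-- the component of `a` in `G - D` stays in the component of `a` in `G - T` when `T` avoids it -/
lemma comp_subset_of_disjoint {G : SimpleGraph V} (haD : a ∉ D) (hd : Disjoint (comp G D a) T) :
    comp G D a ⊆ comp G T a :=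
  conn_subset_comp (comps_conn (comp_mem_comps haD)) hd (self_mem_comp a)

/-- 5.3: the components of `G - D` other than that of `a` are single points of `f` -/
theorem str_single (hCoup : StmtCoup) (h : NC A) (hAC : AllCrossed A) (hCo : AllCoupled A)
    (hB : Big A a D) (hf : Mem A f) (hc : Cross A D f)
    (hsep : ∀ d ∈ D, ∀ d' ∈ D, d ≠ d' → ¬ (del (gr A) f).Reachable d d')
    (hX : X ∈ comps (gr A) D) (hXa : X ≠ comp (gr A) D a) (hmeet : (f ∩ X).Nonempty) :
    ∃ z, X = {z} ∧ z ∈ f := by
  have haD : a ∉ D := hB.na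
  have hCmem : comp (gr A) D a ∈ comps (gr A) D := comp_mem_comps haD
  have hCX : Disjoint (comp (gr A) D a) X := comps_disjoint hCmem hX (Ne.symm hXa)
  have haX : a ∉ X := Finset.disjoint_left.1 hCX (self_mem_comp a)
  have hXD : Disjoint X D := comps_disjoint_S hX
  have hDne : ∃ d, d ∈ D := by
    have := hB.tight.two
    exact (card_pos.1 (by omega : 0 < D.card))
  -- the part is single
  have h1 : (f ∩ X).card = 1 := by
    by_contra hne
    have hpos := card_pos.2 hmeet
    have h2 : 2 ≤ (f ∩ X).card := by omega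
    have hT := hc.part_tight h hX h2
    obtain ⟨d, hd⟩ := hDne
    have hdX : d ∉ X := Finset.disjoint_right.1 hXD hd
    refine hB.contra hT (fun hm => haX (mem_inter.1 hm).2) ?_ hd ?_
    · exact comp_subset_of_disjoint haD
        (Finset.disjoint_of_subset_right inter_subset_right hCX)
    · rw [mem_comp]
      exact hc.reach h hX hmeet haX hdX
  obtain ⟨z, hz⟩ := card_eq_one.1 h1
  have hzm : z ∈ f ∩ X := by rw [hz]; exact mem_singleton_self z
  obtain ⟨hzf, hzX⟩ := mem_inter.1 hzm
  refine ⟨z, ?_, hzf⟩
  by_contra hXne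
  -- a further point of `X`
  obtain ⟨q, hqX, hqz⟩ : ∃ q ∈ X, q ≠ z := by
    by_contra hno
    push Not at hno
    refine hXne (Finset.eq_singleton_iff_unique_mem.2 ⟨hzX, hno⟩)
  have hqD : q ∉ D := Finset.disjoint_left.1 hXD hqX
  have hzD : z ∉ D := Finset.disjoint_left.1 hXD hzX
  have hqDz : q ∉ insert z D := by
    rw [mem_insert, not_or]
    exact ⟨hqz, hqD⟩
  -- the component `Q` of `q` in `G - (D ∪ {z})`
  set Q : Finset V := comp (gr A) (insert z D) q with hQ
  have hQmem : Q ∈ comps (gr A) (insert z D) := comp_mem_comps hqDz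
  have hQX : Q ⊆ X := subset_of_mem (subset_insert z D) hQmem hX (self_mem_comp q) hqX
  have hQd : Disjoint Q (insert z D) := comps_disjoint_S hQmem
  have hzQ : z ∉ Q := Finset.disjoint_right.1 hQd (mem_insert_self z D)
  have hQconn : Conn (gr A) Q := comps_conn hQmem
  have hqQ : q ∈ Q := self_mem_comp q
  have hQf : Disjoint Q f := by
    rw [Finset.disjoint_left]
    intro v hv hvf
    have : v ∈ f ∩ X := mem_inter.2 ⟨hvf, hQX hv⟩
    rw [hz, mem_singleton] at this
    exact hzQ (this ▸ hv)
  have haQ : a ∉ Q := fun hm => haX (hQX hm)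
  have haz : a ≠ z := fun he => haX (he ▸ hzX)
  -- there is a neighbour in `D`
  obtain ⟨p, hp, d, hdQ, hdz, hpd⟩ := exists_adj_out h hqQ hzQ haQ haz
  have hdD : d ∈ D := by
    by_contra hno
    refine hdQ (comps_closed hQmem hp hpd ?_)
    rw [mem_insert, not_or]
    exact ⟨hdz, hno⟩
  -- and it is the only one
  have huniq : ∀ u ∈ Q, ∀ v, (gr A).Adj u v → v ∉ Q → v ∈ ({z, d} : Finset V) := by
    intro u hu v huv hvQ
    rw [mem_insert, mem_singleton]
    by_contra hno
    rw [not_or] at hno
    have hvD : v ∈ D := by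
      by_contra hvD
      refine hvQ (comps_closed hQmem hu huv ?_)
      rw [mem_insert, not_or]
      exact ⟨hno.1, hvD⟩
    refine hsep v hvD d hdD hno.2 ?_
    have hvf : v ∉ f := Finset.disjoint_left.1 hc.disj hvD
    have hdf : d ∉ f := Finset.disjoint_left.1 hc.disj hdD
    have huf : u ∉ f := Finset.disjoint_left.1 hQf hu
    have hpf : p ∉ f := Finset.disjoint_left.1 hQf hp
    have hup : (del (gr A) f).Reachable u p := by
      rw [← mem_comp]
      exact conn_subset_comp hQconn hQf hu hp
    have e1 : (del (gr A) f).Reachable v u :=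
      SimpleGraph.Adj.reachable ⟨huv.symm, hvf, huf⟩
    have e2 : (del (gr A) f).Reachable p d := SimpleGraph.Adj.reachable ⟨hpd, hpf, hdf⟩
    exact (e1.trans hup).trans e2
  have hdX : d ∉ X := Finset.disjoint_right.1 hXD hdD
  have had : a ≠ d := fun he => haD (he ▸ hdD)
  have hzd : z ≠ d := Ne.symm hdz
  have hQzd : Disjoint Q ({z, d} : Finset V) := by
    rw [Finset.disjoint_right]
    intro v hv
    rw [mem_insert, mem_singleton] at hv
    rcases hv with rfl | rfl
    · exact hzQ
    · exact hdQ
  have hQcomp : Q ∈ comps (gr A) ({z, d} : Finset V) := comps_of_comps hQmem hQzd huniq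
  have haS : a ∉ ({z, d} : Finset V) := by
    rw [mem_insert, mem_singleton, not_or]
    exact ⟨haz, had⟩
  have hCzd : Disjoint (comp (gr A) D a) ({z, d} : Finset V) := by
    rw [Finset.disjoint_right]
    intro v hv
    rw [mem_insert, mem_singleton] at hv
    rcases hv with rfl | rfl
    · exact Finset.disjoint_right.1 hCX hzX
    · exact fun hm => Finset.disjoint_left.1 (comp_disjoint haD) hm hdD
  by_cases hadj : (gr A).Adj z d
  · -- adjacent: a coupling
    obtain ⟨g, hg, hzg, hdg, -, -, hT1, -, hr1, -⟩ :=
      hCoup V A z d Q h hAC hCo hadj hQcomp ⟨a, haQ, haz, had⟩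
    have haT : a ∉ insert z (g ∩ Q) := by
      rw [mem_insert, not_or]
      exact ⟨haz, fun hm => haQ (mem_inter.1 hm).2⟩
    have haI : a ∉ insert z Q := by
      rw [mem_insert, not_or]
      exact ⟨haz, haQ⟩
    have hdI : d ∉ insert z Q := by
      rw [mem_insert, not_or]
      exact ⟨hdz, hdQ⟩
    refine hB.contra hT1 haT ?_ hdD ?_
    · refine comp_subset_of_disjoint haD ?_
      refine Finset.disjoint_of_subset_right ?_ hCX
      intro v hv
      rcases mem_insert.1 hv with rfl | hv
      · exact hzX
      · exact hQX (mem_inter.1 hv).2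
    · rw [mem_comp]
      exact hr1 a d haI hdI
  · -- nonadjacent: a tight face
    have hface : A {z, d} := by
      by_contra hno
      exact hadj ⟨hzd, hno⟩
    have hcard : ({z, d} : Finset V).card = 2 := card_pair hzd
    have hle := h.face _ hface (insert_nonempty z {d})
    have hk1 : kk (gr A) ({z, d} : Finset V) ≤ 2 := by
      unfold cc at hle
      rw [hcard] at hle
      omega
    have hne : Q ≠ comp (gr A) ({z, d} : Finset V) a := by
      intro he
      apply haQ
      rw [he]
      exact self_mem_comp a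
    have hamem : comp (gr A) ({z, d} : Finset V) a ∈ comps (gr A) ({z, d} : Finset V) :=
      comp_mem_comps haS
    have hk2 : kk (gr A) ({z, d} : Finset V) = 2 := by
      refine le_antisymm hk1 ?_
      have : 1 < (comps (gr A) ({z, d} : Finset V)).card :=
        one_lt_card.2 ⟨_, hQcomp, _, hamem, hne⟩
      exact this
    have hT : Tight A ({z, d} : Finset V) := by
      refine ⟨hface, hcard.ge, ?_⟩
      unfold cc
      rw [hk2, hcard]
      norm_num
    -- another point of `D`
    obtain ⟨d', hd', hdd'⟩ := Finset.exists_mem_ne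
      (show 1 < D.card by have := hB.tight.two; omega) d
    have hd'z : d' ≠ z := fun he => hzD (he ▸ hd')
    have hd'S : d' ∉ ({z, d} : Finset V) := by
      rw [mem_insert, mem_singleton, not_or]
      exact ⟨hd'z, hdd'⟩
    have hd'Q : d' ∉ Q := fun hm =>
      Finset.disjoint_left.1 hQd hm (mem_insert_of_mem hd')
    refine hB.contra hT haS (comp_subset_of_disjoint haD hCzd) hd' ?_
    -- the component of `d'` is that of `a`
    have hd'mem : comp (gr A) ({z, d} : Finset V) d' ∈ comps (gr A) ({z, d} : Finset V) :=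
      comp_mem_comps hd'S
    have hsub : ({Q, comp (gr A) ({z, d} : Finset V) a} : Finset (Finset V)) ⊆
        comps (gr A) ({z, d} : Finset V) := by
      intro Y hY
      rw [mem_insert, mem_singleton] at hY
      rcases hY with rfl | rfl
      · exact hQcomp
      · exact hamem
    have heq : ({Q, comp (gr A) ({z, d} : Finset V) a} : Finset (Finset V)) =
        comps (gr A) ({z, d} : Finset V) := by
      refine Finset.eq_of_subset_of_card_le hsub ?_
      rw [card_pair hne]
      exact hk1
    rw [← heq, mem_insert, mem_singleton] at hd'mem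
    rcases hd'mem with he | he
    · exact absurd (he ▸ self_mem_comp d') hd'Q
    · rw [← he]
      exact self_mem_comp d'

/-- 5.3 -/
theorem str_thm (hCoup : StmtCoup) : StmtStr := by
  intro V _ _ A a D f h hAC hCo hB hf hc
  have haD : a ∉ D := hB.na
  have hCmem : comp (gr A) D a ∈ comps (gr A) D := comp_mem_comps haD
  have hc' : Cross A f D := hc.symm h
  -- the parts of `D` are single
  have hsep : ∀ d ∈ D, ∀ d' ∈ D, d ≠ d' → ¬ (del (gr A) f).Reachable d d' := by
    intro d hd d' hd' hne hr
    have hdf : d ∉ f := Finset.disjoint_left.1 hc.disj hd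
    have hK : comp (gr A) f d ∈ comps (gr A) f := comp_mem_comps hdf
    have h1 : d ∈ D ∩ comp (gr A) f d := mem_inter.2 ⟨hd, self_mem_comp d⟩
    have h2 : d' ∈ D ∩ comp (gr A) f d := mem_inter.2 ⟨hd', mem_comp.2 hr⟩
    have h3 : 2 ≤ (D ∩ comp (gr A) f d).card := one_lt_card.2 ⟨d, h1, d', h2, hne⟩
    exact hB.min _ (hc'.part_ssub hK ⟨d, h1⟩) (hc'.part_tight h hK h3)
  -- all components of `G - D` meet `f`
  have hkk : kk (gr A) D = D.card := by
    have := hB.tight.zero
    unfold cc at this
    omega
  have hmeetD : (meetComps (gr A) f D).card = D.card := by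
    have himg : meetComps (gr A) f D = D.image (comp (gr A) f) := by
      ext K
      rw [mem_meetComps, mem_image]
      constructor
      · rintro ⟨hK, hKD⟩
        rw [Finset.not_disjoint_iff] at hKD
        obtain ⟨d, hdK, hdD⟩ := hKD
        exact ⟨d, hdD, comp_eq_of_mem_comps hK hdK⟩
      · rintro ⟨d, hdD, rfl⟩
        refine ⟨comp_mem_comps (Finset.disjoint_left.1 hc.disj hdD), ?_⟩
        rw [Finset.not_disjoint_iff]
        exact ⟨d, self_mem_comp d, hdD⟩
    rw [himg]
    refine card_image_of_injOn ?_
    intro d hd d' hd' he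
    by_contra hne
    refine hsep d hd d' hd' hne ?_
    rw [← mem_comp]
    have he' : comp (gr A) f d = comp (gr A) f d' := he
    rw [he']
    exact self_mem_comp d'
  have hall : ∀ X ∈ comps (gr A) D, (f ∩ X).Nonempty := by
    intro X hX
    have hsub : meetComps (gr A) D f ⊆ comps (gr A) D := fun Y hY => (mem_meetComps.1 hY).1
    have hcard : (comps (gr A) D).card ≤ (meetComps (gr A) D f).card := by
      rw [hc.card_eq h, hmeetD, ← hkk]
      exact le_rfl
    have heq := Finset.eq_of_subset_of_card_le hsub hcard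
    rw [← heq] at hX
    obtain ⟨-, h2⟩ := mem_meetComps.1 hX
    rw [Finset.not_disjoint_iff] at h2
    obtain ⟨v, hv1, hv2⟩ := h2
    exact ⟨v, mem_inter.2 ⟨hv2, hv1⟩⟩
  have hsingle : ∀ v, v ∉ D → v ∉ comp (gr A) D a → comp (gr A) D v = {v} ∧ v ∈ f := by
    intro v hvD hvC
    have hX : comp (gr A) D v ∈ comps (gr A) D := comp_mem_comps hvD
    have hne : comp (gr A) D v ≠ comp (gr A) D a := by
      intro he
      apply hvC
      rw [← he]
      exact self_mem_comp v
    obtain ⟨z, hz, hzf⟩ := str_single hCoup h hAC hCo hB hf hc hsep hX hne (hall _ hX)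
    have hvz : v = z := by
      have := self_mem_comp (G := gr A) (S := D) v
      rw [hz, mem_singleton] at this
      exact this
    subst hvz
    exact ⟨hz, hzf⟩
  refine ⟨hf, hc, hsep, fun v hv hv' => (hsingle v hv hv').2, ?_, hall _ hCmem, ?_⟩
  · intro v hvD hvC w hvw
    by_contra hwD
    have hw : w ∈ comp (gr A) D v :=
      comps_closed (comp_mem_comps hvD) (self_mem_comp v) hvw hwD
    rw [(hsingle v hvD hvC).1, mem_singleton] at hw
    exact hvw.ne hw.symm
  · -- counting
    set Z : Finset V := univ \ (D ∪ comp (gr A) D a) with hZ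
    have hmemZ : ∀ v, v ∈ Z ↔ v ∉ D ∧ v ∉ comp (gr A) D a := by
      intro v
      rw [hZ, mem_sdiff, mem_union, not_or]
      exact ⟨fun hx => hx.2, fun hx => ⟨mem_univ v, hx⟩⟩
    have heq : comps (gr A) D = insert (comp (gr A) D a) (Z.image fun v => ({v} : Finset V)) := by
      ext X
      rw [mem_insert, mem_image]
      constructor
      · intro hX
        by_cases hXa : X = comp (gr A) D a
        · exact Or.inl hXa
        · right
          obtain ⟨v, hv⟩ := comps_nonempty hX
          have hvD : v ∉ D := Finset.disjoint_left.1 (comps_disjoint_S hX) hv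
          have hvC : v ∉ comp (gr A) D a := fun hm =>
            hXa (comps_eq_of_mem hX hCmem hv hm)
          refine ⟨v, (hmemZ v).2 ⟨hvD, hvC⟩, ?_⟩
          rw [← (hsingle v hvD hvC).1]
          exact comp_eq_of_mem_comps hX hv
      · rintro (rfl | ⟨v, hv, rfl⟩)
        · exact hCmem
        · obtain ⟨hvD, hvC⟩ := (hmemZ v).1 hv
          rw [← (hsingle v hvD hvC).1]
          exact comp_mem_comps hvD
    have hnot : comp (gr A) D a ∉ Z.image fun v => ({v} : Finset V) := by
      intro hm
      obtain ⟨v, hv, he⟩ := mem_image.1 hm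
      apply ((hmemZ v).1 hv).2
      rw [← he]
      exact mem_singleton_self v
    have hcard : kk (gr A) D = Z.card + 1 := by
      unfold kk
      rw [heq, card_insert_of_notMem hnot, card_image_of_injective _ Finset.singleton_injective]
    omega

end

end Pool.Agent.Chrom
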