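import Pool.Agent.Lib_helper46.Chrom.NSDefs

/-!
# The case of a root of degree two (note 1214, section 5.8)
-/

open Finset

namespace Pool.Agent.Chrom

/-- the common part of 5.8 for `b = z`: there is a partner `w` of `z` with `a` on the side of `u` -/
def StmtPartner : Prop :=
  ∀ (V : Type) [Fintype V] [DecidableEq V] (A : Finset V → Prop) (a u v z : V),
    NC A → Root A a z → 4 ≤ Fintype.card V → AllCrossed A →
    (∀ w, (gr A).Adj z w ↔ w = u ∨ w = v) → u ≠ v → ¬ (gr A).Adj u v →
    ∃ w, Tight A {z, w} ∧ (del (gr A) {z, w}).Reachable u a ∧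
      ¬ (del (gr A) {z, w}).Reachable u v

section

variable {V : Type} [Fintype V] [DecidableEq V] {A : Finset V → Prop} {a d z p q u v w x y : V}
  {D T f C X Q S : Finset V}

/-- a cut with exactly two components: two points outside one of them are connected -/
lemma reach_of_two {G : SimpleGraph V} (hk : kk G S ≤ 2) (hQ : Q ∈ comps G S) (hp : p ∉ S)
    (hq : q ∉ S) (hpQ : p ∉ Q) (hqQ : q ∉ Q) : (del G S).Reachable p q := by
  by_contra hno
  have h1 : Q ≠ comp G S p := by
    intro he
    apply hpQ
    rw [he]
    exact self_mem_comp p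
  have h2 : Q ≠ comp G S q := by
    intro he
    apply hqQ
    rw [he]
    exact self_mem_comp q
  have h3 : comp G S p ≠ comp G S q := by
    intro he
    apply hno
    rw [← mem_comp, he]
    exact self_mem_comp q
  have hsub : ({Q, comp G S p, comp G S q} : Finset (Finset V)) ⊆ comps G S := by
    intro Y hY
    rw [mem_insert, mem_insert, mem_singleton] at hY
    rcases hY with rfl | rfl | rfl
    · exact hQ
    · exact comp_mem_comps hp
    · exact comp_mem_comps hq
  have h4 : ({Q, comp G S p, comp G S q} : Finset (Finset V)).card = 3 :=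
    card_eq_three.2 ⟨_, _, _, h1, h2, h3, rfl⟩
  have h5 := card_le_card hsub
  rw [h4] at h5
  have h6 : kk G S = (comps G S).card := rfl
  omega

lemma kk_pair_le (h : NC A) (hxy : x ≠ y) (hadj : ¬ (gr A).Adj x y) :
    kk (gr A) ({x, y} : Finset V) ≤ 2 := by
  have hface : A {x, y} := by
    by_contra hno
    exact hadj ⟨hxy, hno⟩
  have hle := h.face _ hface (insert_nonempty x {y})
  unfold cc at hle
  rw [card_pair hxy] at hle
  omega

/-- a nonadjacent two-cut is a tight face -/
lemma pair_tight (h : NC A) (hxy : x ≠ y) (hadj : ¬ (gr A).Adj x y)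
    (hQ : Q ∈ comps (gr A) ({x, y} : Finset V)) (hp : p ∉ ({x, y} : Finset V)) (hpQ : p ∉ Q) :
    Tight A ({x, y} : Finset V) := by
  have hface : A {x, y} := by
    by_contra hno
    exact hadj ⟨hxy, hno⟩
  have hk := kk_pair_le h hxy hadj
  have hcard := card_pair hxy
  have hne : Q ≠ comp (gr A) ({x, y} : Finset V) p := by
    intro he
    apply hpQ
    rw [he]
    exact self_mem_comp p
  have h2 : 1 < (comps (gr A) ({x, y} : Finset V)).card :=
    one_lt_card.2 ⟨_, hQ, _, comp_mem_comps hp, hne⟩
  have h3 : kk (gr A) ({x, y} : Finset V) = (comps (gr A) ({x, y} : Finset V)).card := rfl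
  refine ⟨hface, hcard.ge, ?_⟩
  unfold cc
  rw [hcard]
  have : kk (gr A) ({x, y} : Finset V) = 2 := by omega
  rw [this]
  norm_num

lemma Tight.pair_kk (hxy : x ≠ y) (hT : Tight A ({x, y} : Finset V)) :
    kk (gr A) ({x, y} : Finset V) = 2 := by
  have := hT.zero
  unfold cc at this
  rw [card_pair hxy] at this
  omega

omit [Fintype V] in
lemma not_mem_pair (h1 : p ≠ x) (h2 : p ≠ y) : p ∉ ({x, y} : Finset V) := by
  rw [mem_insert, mem_singleton, not_or]
  exact ⟨h1, h2⟩

/-- the two neighbours of `z` are separated by a tight pair `{z, w}` -/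
lemma partner_sep (h : NC A) (hz : ∀ w, (gr A).Adj z w ↔ w = u ∨ w = v) (hzw : z ≠ w)
    (hT : Tight A ({z, w} : Finset V)) : ¬ (del (gr A) {z, w}).Reachable u v := by
  intro hr
  have hwu : w ≠ u := by
    rintro rfl
    exact h.not_adj hT.face (mem_insert_self z {w}) (mem_insert_of_mem (mem_singleton_self w))
      ((hz w).2 (Or.inl rfl))
  have hzu : z ≠ u := ((hz u).2 (Or.inl rfl)).ne
  have huS : u ∉ ({z, w} : Finset V) := not_mem_pair hzu.symm hwu.symm
  have hU : comp (gr A) {z, w} u ∈ comps (gr A) ({z, w} : Finset V) := comp_mem_comps huS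
  obtain ⟨E, hE, hne⟩ := Finset.exists_mem_ne
    (show 1 < (comps (gr A) ({z, w} : Finset V)).card by
      have : kk (gr A) ({z, w} : Finset V) = (comps (gr A) ({z, w} : Finset V)).card := rfl
      have := hT.pair_kk hzw
      omega) (comp (gr A) {z, w} u)
  obtain ⟨e, he⟩ := comps_nonempty hE
  have hES := comps_disjoint_S hE
  have hzE : z ∉ E := Finset.disjoint_right.1 hES (mem_insert_self z {w})
  have hwE : w ∉ E := Finset.disjoint_right.1 hES (mem_insert_of_mem (mem_singleton_self w))
  have hEU : Disjoint E (comp (gr A) {z, w} u) := comps_disjoint hE hU hne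
  obtain ⟨p, hp, q, hqE, hqw, hpq⟩ := exists_adj_out h he hwE hzE hzw
  have hqz : q = z := by
    by_contra hqz
    exact hqE (comps_closed hE hp hpq (not_mem_pair hqz hqw))
  subst hqz
  rcases (hz p).1 hpq.symm with rfl | rfl
  · exact Finset.disjoint_left.1 hEU hp (self_mem_comp p)
  · exact Finset.disjoint_left.1 hEU hp (mem_comp.2 hr)

/-- 5.8, the minimal counterexample argument -/
theorem degTwo_aux (hCoup : StmtCoup) (hLQ : StmtLemmaQ) (h : NC A) (hr : Root A a z)
    (h4 : 4 ≤ Fintype.card V) (hAC : AllCrossed A) (hCo : AllCoupled A)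
    (hz : ∀ w, (gr A).Adj z w ↔ w = u ∨ w = v) (huv : u ≠ v) :
    ∀ n w, Tight A ({z, w} : Finset V) → (del (gr A) {z, w}).Reachable v a →
      (comp (gr A) {z, w} u).card = n → False := by
  intro n
  induction n using Nat.strong_induction_on with
  | _ n ih =>
  intro w hT hva hn
  have hzw : z ≠ w := by
    rintro rfl
    have := hT.two
    rw [Finset.pair_eq_singleton, card_singleton] at this
    omega
  have hnadj : ¬ (gr A).Adj z w := h.not_adj hT.face (mem_insert_self z {w})
    (mem_insert_of_mem (mem_singleton_self w))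
  have hwu : w ≠ u := by
    rintro rfl
    exact hnadj ((hz w).2 (Or.inl rfl))
  have hwv : w ≠ v := by
    rintro rfl
    exact hnadj ((hz w).2 (Or.inr rfl))
  have hzu : z ≠ u := ((hz u).2 (Or.inl rfl)).ne
  have hzv : z ≠ v := ((hz v).2 (Or.inr rfl)).ne
  have huS : u ∉ ({z, w} : Finset V) := not_mem_pair hzu.symm hwu.symm
  have hvS : v ∉ ({z, w} : Finset V) := not_mem_pair hzv.symm hwv.symm
  have haS : a ∉ ({z, w} : Finset V) := not_mem_of_reachable hva hvS
  have haz : a ≠ z := by
    intro he
    rw [he] at haS
    exact haS (mem_insert_self z {w})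
  have haw : a ≠ w := by
    intro he
    rw [he] at haS
    exact haS (mem_insert_of_mem (mem_singleton_self w))
  have hsepuv := partner_sep h hz hzw hT
  have hk2 := hT.pair_kk hzw
  obtain ⟨g, hg, hc⟩ := Crossed.cross h hT (hAC _ hT)
  have hRu : comp (gr A) {z, w} u ∈ comps (gr A) ({z, w} : Finset V) := comp_mem_comps huS
  have hRv : comp (gr A) {z, w} v ∈ comps (gr A) ({z, w} : Finset V) := comp_mem_comps hvS
  have hvRu : v ∉ comp (gr A) {z, w} u := fun hm => hsepuv (mem_comp.1 hm)
  have haRu : a ∉ comp (gr A) {z, w} u := fun hm =>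
    hsepuv ((mem_comp.1 hm).trans hva.symm)
  have hSRu := comps_disjoint_S hRu
  have hzRu : z ∉ comp (gr A) {z, w} u := Finset.disjoint_right.1 hSRu (mem_insert_self z {w})
  have hwRu : w ∉ comp (gr A) {z, w} u :=
    Finset.disjoint_right.1 hSRu (mem_insert_of_mem (mem_singleton_self w))
  -- `g` meets both components
  have hmeet : (g ∩ comp (gr A) {z, w} u).Nonempty := by
    have hsub : meetComps (gr A) ({z, w} : Finset V) g ⊆ comps (gr A) ({z, w} : Finset V) :=
      fun Y hY => (mem_meetComps.1 hY).1
    have heq := Finset.eq_of_subset_of_card_le hsub (by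
      have := hc.two
      have : kk (gr A) ({z, w} : Finset V) = (comps (gr A) ({z, w} : Finset V)).card := rfl
      omega)
    have hm : comp (gr A) {z, w} u ∈ meetComps (gr A) ({z, w} : Finset V) g := by
      rw [heq]
      exact hRu
    obtain ⟨-, h2⟩ := mem_meetComps.1 hm
    rw [Finset.not_disjoint_iff] at h2
    obtain ⟨s, hs1, hs2⟩ := h2
    exact ⟨s, mem_inter.2 ⟨hs2, hs1⟩⟩
  have hcard1 : (g ∩ comp (gr A) {z, w} u).card = 1 := by
    have hpos := card_pos.2 hmeet
    by_contra hne
    rcases hc.root_mem h hr hRu (by omega) with h1 | h1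
    · exact haRu h1
    · exact hzRu h1
  obtain ⟨p, hp⟩ := card_eq_one.1 hcard1
  have hpm : p ∈ g ∩ comp (gr A) {z, w} u := by
    rw [hp]
    exact mem_singleton_self p
  obtain ⟨hpg, hpR⟩ := mem_inter.1 hpm
  have hpS : p ∉ ({z, w} : Finset V) := Finset.disjoint_left.1 hSRu hpR
  have hpz : p ≠ z := fun he => hzRu (he ▸ hpR)
  have hpw : p ≠ w := fun he => hwRu (he ▸ hpR)
  have hpv : p ≠ v := fun he => hvRu (he ▸ hpR)
  by_cases hpu : p = u
  · -- the part is `{u}`
    subst hpu
    by_cases hR : ∃ q ∈ comp (gr A) {z, w} p, q ≠ p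
    · obtain ⟨q, hqR, hqp⟩ := hR
      have hqS : q ∉ ({z, w} : Finset V) := Finset.disjoint_left.1 hSRu hqR
      have hqS3 : q ∉ insert p ({z, w} : Finset V) := by
        rw [mem_insert, not_or]
        exact ⟨hqp, hqS⟩
      set Q : Finset V := comp (gr A) (insert p ({z, w} : Finset V)) q with hQdef
      have hQ : Q ∈ comps (gr A) (insert p ({z, w} : Finset V)) := comp_mem_comps hqS3
      have hQR : Q ⊆ comp (gr A) {z, w} p :=
        subset_of_mem (subset_insert p _) hQ hRu (self_mem_comp q) hqR
      have hQd := comps_disjoint_S hQ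
      have hpQ : p ∉ Q := Finset.disjoint_right.1 hQd (mem_insert_self p _)
      have hzQ : z ∉ Q := fun hm => hzRu (hQR hm)
      have hwQ : w ∉ Q := fun hm => hwRu (hQR hm)
      have haQ : a ∉ Q := fun hm => haRu (hQR hm)
      have hvQ : v ∉ Q := fun hm => hvRu (hQR hm)
      have hap : a ≠ p := by
        intro he
        rw [he] at haRu
        exact haRu (self_mem_comp p)
      have hQc : Q ∈ comps (gr A) ({p, w} : Finset V) := by
        refine comps_of_comps hQ ?_ ?_
        · rw [Finset.disjoint_right]
          intro s hs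
          rw [mem_insert, mem_singleton] at hs
          rcases hs with rfl | rfl
          · exact hpQ
          · exact hwQ
        · intro x hx y hxy hyQ
          rw [mem_insert, mem_singleton]
          by_contra hno
          rw [not_or] at hno
          have hyz : y ≠ z := by
            rintro rfl
            rcases (hz x).1 hxy.symm with rfl | rfl
            · exact hpQ hx
            · exact hvQ hx
          refine hyQ (comps_closed hQ hx hxy ?_)
          rw [mem_insert, mem_insert, mem_singleton, not_or, not_or]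
          exact ⟨hno.1, hyz, hno.2⟩
      have haT : a ∉ ({p, w} : Finset V) := not_mem_pair hap haw
      have hzT : z ∉ ({p, w} : Finset V) := not_mem_pair hpz.symm hzw
      by_cases hadj : (gr A).Adj p w
      · obtain ⟨f, hf, hpf, hwf, -, -, hT1, -, hr1, -⟩ :=
          hCoup V A p w Q h hAC hCo hadj hQc ⟨z, hzQ, hpz.symm, hzw⟩
        have haI : a ∉ insert p Q := by
          rw [mem_insert, not_or]
          exact ⟨hap, haQ⟩
        have hzI : z ∉ insert p Q := by
          rw [mem_insert, not_or]
          exact ⟨hpz.symm, hzQ⟩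
        have hsubI : insert p (f ∩ Q) ⊆ insert p Q := insert_subset_insert p inter_subset_right
        rcases hr _ hT1 with h1 | h1 | h1
        · exact haI (hsubI h1)
        · exact hzI (hsubI h1)
        · exact h1 (hr1 a z haI hzI)
      · have hT1 := pair_tight h hpw hadj hQc hzT hzQ
        rcases hr _ hT1 with h1 | h1 | h1
        · exact haT h1
        · exact hzT h1
        · exact h1 (reach_of_two (hT1.pair_kk hpw).le hQc haT hzT haQ hzQ)
    · -- `u` has the neighbours `z` and `w`
      push Not at hR
      have hN1 : ∀ y, (gr A).Adj p y → y = z ∨ y = w := by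
        intro y hy
        by_contra hno
        rw [not_or] at hno
        have hyR : y ∈ comp (gr A) {z, w} p :=
          comps_closed hRu (self_mem_comp p) hy (not_mem_pair hno.1 hno.2)
        exact hy.ne (hR y hyR).symm
      have hpw' : (gr A).Adj p w := by
        have hzE : z ∉ ({p} : Finset V) := by
          rw [mem_singleton]
          exact hpz.symm
        have hwE : w ∉ ({p} : Finset V) := by
          rw [mem_singleton]
          exact hpw.symm
        obtain ⟨s, hs, q, hqE, hqz, hsq⟩ :=
          exists_adj_out h (mem_singleton_self p) hzE hwE hzw.symm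
        rw [mem_singleton] at hs
        subst hs
        rcases hN1 q hsq with rfl | rfl
        · exact absurd rfl hqz
        · exact hsq
      refine hLQ V A a z w p h hr h4 hAC ?_ hzw hnadj
      intro y
      constructor
      · exact hN1 y
      · rintro (rfl | rfl)
        · exact ((hz p).2 (Or.inl rfl)).symm
        · exact hpw'
  · -- a smaller partner
    have huS3 : u ∉ insert p ({z, w} : Finset V) := by
      rw [mem_insert, not_or]
      exact ⟨fun he => hpu he.symm, huS⟩
    set U : Finset V := comp (gr A) (insert p ({z, w} : Finset V)) u with hUdef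
    have hU : U ∈ comps (gr A) (insert p ({z, w} : Finset V)) := comp_mem_comps huS3
    have hUR : U ⊆ comp (gr A) {z, w} u := comp_anti (subset_insert p _) u
    have hUd := comps_disjoint_S hU
    have hpU : p ∉ U := Finset.disjoint_right.1 hUd (mem_insert_self p _)
    have huU : u ∈ U := self_mem_comp u
    have hUg : Disjoint U g := by
      rw [Finset.disjoint_left]
      intro s hs hsg
      have : s ∈ g ∩ comp (gr A) {z, w} u := mem_inter.2 ⟨hsg, hUR hs⟩
      rw [hp, mem_singleton] at this
      exact hpU (this ▸ hs)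
    have hzg : z ∉ g := Finset.disjoint_left.1 hc.disj (mem_insert_self z {w})
    have hwg : w ∉ g :=
      Finset.disjoint_left.1 hc.disj (mem_insert_of_mem (mem_singleton_self w))
    have hnozw : ¬ (del (gr A) g).Reachable z w := by
      intro hreach
      obtain ⟨s, hs, t, ht, hst⟩ := (hc.symm h).exists_not_reachable
      rw [mem_insert, mem_singleton] at hs ht
      rcases hs with rfl | rfl <;> rcases ht with rfl | rfl
      · exact hst (SimpleGraph.Reachable.refl _)
      · exact hst hreach
      · exact hst hreach.symm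
      · exact hst (SimpleGraph.Reachable.refl _)
    have hUw : ∀ x ∈ U, ¬ (gr A).Adj x w := by
      intro x hx hxw
      apply hnozw
      have hug : u ∉ g := Finset.disjoint_left.1 hUg huU
      have hxg : x ∉ g := Finset.disjoint_left.1 hUg hx
      have e1 : (del (gr A) g).Reachable z u :=
        SimpleGraph.Adj.reachable ⟨(hz u).2 (Or.inl rfl), hzg, hug⟩
      have e2 : (del (gr A) g).Reachable u x := by
        rw [← mem_comp]
        exact conn_subset_comp (comps_conn hU) hUg huU hx
      have e3 : (del (gr A) g).Reachable x w := SimpleGraph.Adj.reachable ⟨hxw, hxg, hwg⟩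
      exact (e1.trans e2).trans e3
    have hzU : z ∉ U := fun hm => hzRu (hUR hm)
    have hwU : w ∉ U := fun hm => hwRu (hUR hm)
    have hUc : U ∈ comps (gr A) ({z, p} : Finset V) := by
      refine comps_of_comps hU ?_ ?_
      · rw [Finset.disjoint_right]
        intro s hs
        rw [mem_insert, mem_singleton] at hs
        rcases hs with rfl | rfl
        · exact hzU
        · exact hpU
      · intro x hx y hxy hyU
        rw [mem_insert, mem_singleton]
        by_contra hno
        rw [not_or] at hno
        have hyw : y ≠ w := by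
          rintro rfl
          exact hUw x hx hxy
        refine hyU (comps_closed hU hx hxy ?_)
        rw [mem_insert, mem_insert, mem_singleton, not_or, not_or]
        exact ⟨hno.2, hno.1, hyw⟩
    have hnzp : ¬ (gr A).Adj z p := by
      intro hadj
      rcases (hz p).1 hadj with h1 | h1
      · exact hpu h1
      · exact hpv h1
    have hwT : w ∉ ({z, p} : Finset V) := not_mem_pair hzw.symm hpw.symm
    have hT1 := pair_tight h hpz.symm hnzp hUc hwT hwU
    have hcomp : comp (gr A) {z, p} u = U := comp_eq_of_mem_comps hUc huU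
    have hlt : U.card < n := by
      rw [← hn]
      apply card_lt_card
      rw [Finset.ssubset_iff_subset_ne]
      refine ⟨hUR, fun he => hpU ?_⟩
      rw [he]
      exact hpR
    have hap : a ≠ p := fun he => haRu (he ▸ hpR)
    refine ih U.card hlt p hT1 ?_ (by rw [hcomp])
    exact reach_of_two (hT1.pair_kk hpz.symm).le hUc (not_mem_pair hzv.symm hpv.symm)
      (not_mem_pair haz hap) (fun hm => hvRu (hUR hm)) (fun hm => haRu (hUR hm))

/-- 5.8, the case `b = z` -/
theorem degTwo (hCoup : StmtCoup) (hLQ : StmtLemmaQ) (hPar : StmtPartner) : StmtDegTwo := by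
  intro V _ _ A a u v z h hr h4 hAC hCo hz huv hadj
  have hz' : ∀ w, (gr A).Adj z w ↔ w = v ∨ w = u := fun w => (hz w).trans or_comm
  obtain ⟨w, hT, hva, -⟩ := hPar V A a v u z h hr h4 hAC hz' huv.symm
    (fun hc => hadj hc.symm)
  exact degTwo_aux hCoup hLQ h hr h4 hAC hCo hz huv _ w hT hva rfl

end

end Pool.Agent.Chrom
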